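import Mathlib

/-! Elementary geometry of tilted unit squares. -/

namespace Pool.Agent.MP_1fa752_co.H51

open MeasureTheory Set

/-- a unit square: centre and unit direction vector -/
structure Sq where
  x : ℝ
  y : ℝ
  u : ℝ
  v : ℝ
  h : u ^ 2 + v ^ 2 = 1

/-- the closed square -/
def Sq.set (S : Sq) : Set (ℝ × ℝ) :=
  {p | |(p.1 - S.x) * S.u + (p.2 - S.y) * S.v| ≤ 1 / 2 ∧
    |-((p.1 - S.x) * S.v) + (p.2 - S.y) * S.u| ≤ 1 / 2}

/-- the tilt -/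
noncomputable def Sq.a (S : Sq) : ℝ := |2 * S.u * S.v|

theorem Sq.a_nonneg (S : Sq) : 0 ≤ S.a := abs_nonneg _

theorem Sq.a_le_one (S : Sq) : S.a ≤ 1 := by
  rw [Sq.a, abs_le]
  constructor <;> nlinarith [S.h, sq_nonneg (S.u + S.v), sq_nonneg (S.u - S.v)]

theorem Sq.isClosed (S : Sq) : IsClosed S.set := by
  have h1 : IsClosed {p : ℝ × ℝ | |(p.1 - S.x) * S.u + (p.2 - S.y) * S.v| ≤ 1 / 2} :=
    isClosed_le (by fun_prop) continuous_const
  have h2 : IsClosed {p : ℝ × ℝ | |-((p.1 - S.x) * S.v) + (p.2 - S.y) * S.u| ≤ 1 / 2} :=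
    isClosed_le (by fun_prop) continuous_const
  exact h1.inter h2

theorem Sq.meas (S : Sq) : MeasurableSet S.set := S.isClosed.measurableSet

theorem vol_param (p e f : ℝ × ℝ) (A : Set (ℝ × ℝ)) :
    volume ((fun z : ℝ × ℝ => p + (z.1 • e + z.2 • f)) '' A) =
      ENNReal.ofReal |e.1 * f.2 - e.2 * f.1| * volume A := by
  let L : (ℝ × ℝ) →ₗ[ℝ] (ℝ × ℝ) :=
    (LinearMap.toSpanSingleton ℝ _ e).coprod (LinearMap.toSpanSingleton ℝ _ f)
  have h1 : (fun z : ℝ × ℝ => p + (z.1 • e + z.2 • f)) '' A = (fun z => p + z) '' (L '' A) := by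
    rw [Set.image_image]; rfl
  have h2 : LinearMap.det L = e.1 * f.2 - e.2 * f.1 := by
    rw [← LinearMap.det_toMatrix (Module.Basis.finTwoProd ℝ), Matrix.det_fin_two]
    simp [LinearMap.toMatrix_apply, L]
    ring
  rw [h1, Set.image_add_left, measure_preimage_add, Measure.addHaar_image_linearMap, h2]

theorem vol_box (a b c d : ℝ) :
    volume (Icc a b ×ˢ Icc c d) = ENNReal.ofReal (b - a) * ENNReal.ofReal (d - c) := by
  rw [Measure.volume_eq_prod, Measure.prod_prod, Real.volume_Icc, Real.volume_Icc]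

theorem Sq.vol (S : Sq) : volume S.set = 1 := by
  have h := vol_param (S.x, S.y) (S.u, S.v) (-S.v, S.u) (Icc (-1 / 2) (1 / 2) ×ˢ Icc (-1 / 2) (1 / 2))
  have e : (fun z : ℝ × ℝ => (S.x, S.y) + (z.1 • (S.u, S.v) + z.2 • (-S.v, S.u))) ''
      (Icc (-1 / 2) (1 / 2) ×ˢ Icc (-1 / 2) (1 / 2)) = S.set := by
    ext p
    constructor
    · rintro ⟨⟨s, t⟩, ⟨hs, ht⟩, rfl⟩
      simp only [Sq.set, mem_ofPred_eq, Prod.fst_add, Prod.snd_add, Prod.smul_fst, Prod.smul_snd,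
        smul_eq_mul]
      have e1 : (S.x + (s * S.u + t * -S.v) - S.x) * S.u + (S.y + (s * S.v + t * S.u) - S.y) * S.v
          = s := by linear_combination s * S.h
      have e2 : -((S.x + (s * S.u + t * -S.v) - S.x) * S.v) +
          (S.y + (s * S.v + t * S.u) - S.y) * S.u = t := by linear_combination t * S.h
      rw [e1, e2, abs_le, abs_le]
      exact ⟨⟨by linarith [hs.1], hs.2⟩, ⟨by linarith [ht.1], ht.2⟩⟩
    · rintro ⟨h1, h2⟩
      rw [abs_le] at h1 h2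
      refine ⟨((p.1 - S.x) * S.u + (p.2 - S.y) * S.v, -((p.1 - S.x) * S.v) + (p.2 - S.y) * S.u),
        ⟨⟨by linarith [h1.1], h1.2⟩, ⟨by linarith [h2.1], h2.2⟩⟩, ?_⟩
      ext
      · simp only [Prod.fst_add, Prod.smul_fst, smul_eq_mul]
        linear_combination (p.1 - S.x) * S.h
      · simp only [Prod.snd_add, Prod.smul_snd, smul_eq_mul]
        linear_combination (p.2 - S.y) * S.h
  rw [e, vol_box] at h
  rw [h]
  have e3 : S.u * S.u - S.v * -S.v = 1 := by linear_combination S.h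
  simp only [e3]
  norm_num

theorem Sq.near {S : Sq} {p : ℝ × ℝ} (hp : p ∈ S.set) :
    |p.1 - S.x| ≤ 3 / 4 ∧ |p.2 - S.y| ≤ 3 / 4 := by
  obtain ⟨h1, h2⟩ := hp
  have e1 := sq_le_sq' (abs_le.1 h1).1 (abs_le.1 h1).2
  have e2 := sq_le_sq' (abs_le.1 h2).1 (abs_le.1 h2).2
  have e3 : (p.1 - S.x) ^ 2 + (p.2 - S.y) ^ 2 = ((p.1 - S.x) * S.u + (p.2 - S.y) * S.v) ^ 2 +
      (-((p.1 - S.x) * S.v) + (p.2 - S.y) * S.u) ^ 2 := by
    linear_combination (-((p.1 - S.x) ^ 2 + (p.2 - S.y) ^ 2)) * S.h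
  constructor <;> refine abs_le_of_sq_le_sq ?_ (by norm_num) <;>
    nlinarith [sq_nonneg (p.1 - S.x), sq_nonneg (p.2 - S.y)]

theorem Sq.mem_of_close (S : Sq) {p : ℝ × ℝ} (hp : (p.1 - S.x) ^ 2 + (p.2 - S.y) ^ 2 ≤ 1 / 4) :
    p ∈ S.set := by
  have e3 : (p.1 - S.x) ^ 2 + (p.2 - S.y) ^ 2 = ((p.1 - S.x) * S.u + (p.2 - S.y) * S.v) ^ 2 +
      (-((p.1 - S.x) * S.v) + (p.2 - S.y) * S.u) ^ 2 := by
    linear_combination (-((p.1 - S.x) ^ 2 + (p.2 - S.y) ^ 2)) * S.h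
  constructor <;> refine abs_le_of_sq_le_sq ?_ (by norm_num) <;>
    nlinarith [sq_nonneg ((p.1 - S.x) * S.u + (p.2 - S.y) * S.v),
      sq_nonneg (-((p.1 - S.x) * S.v) + (p.2 - S.y) * S.u)]

theorem Sq.convex (S : Sq) : Convex ℝ S.set := by
  intro p hp q hq a b ha hb hab
  obtain ⟨h1, h2⟩ := hp
  obtain ⟨h3, h4⟩ := hq
  rw [abs_le] at h1 h2 h3 h4
  have hb' : b = 1 - a := by linarith
  subst hb'
  simp only [Sq.set, mem_ofPred_eq, Prod.fst_add, Prod.snd_add, Prod.smul_fst, Prod.smul_snd,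
    smul_eq_mul, abs_le]
  refine ⟨⟨?_, ?_⟩, ?_, ?_⟩ <;> nlinarith [h1.1, h1.2, h2.1, h2.2, h3.1, h3.2, h4.1, h4.2]

/-- one-dimensional core of the two point lemmas -/
theorem mid_le {p q w : ℝ} (hp : |p| ≤ 1 / 2) (hq : |q| ≤ 1 / 2) (hw : |w| ≤ |q - p| / 2) :
    |(p + q) / 2 + w| ≤ 1 / 2 := by
  rw [abs_le] at hp hq hw ⊢
  rcases abs_cases (q - p) with h | h <;> constructor <;> linarith [hp.1, hp.2, hq.1, hq.2, hw.1, hw.2, h.1]

theorem mid_le' {p q w : ℝ} (hp : |p| ≤ 1 / 2) (hq : |q| ≤ 1 / 2) (hw : |w| ≤ 1 / 2) :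
    |(p + q) / 2 + w| ≤ 1 / 2 ∨ |(p + q) / 2 - w| ≤ 1 / 2 := by
  rw [abs_le] at hp hq hw
  rw [abs_le, abs_le]
  rcases le_total 0 ((p + q) / 2) with h | h <;> rcases le_total 0 w with h' | h'
  · right; constructor <;> linarith [hp.1, hp.2, hq.1, hq.2, hw.1, hw.2]
  · left; constructor <;> linarith [hp.1, hp.2, hq.1, hq.2, hw.1, hw.2]
  · left; constructor <;> linarith [hp.1, hp.2, hq.1, hq.2, hw.1, hw.2]
  · right; constructor <;> linarith [hp.1, hp.2, hq.1, hq.2, hw.1, hw.2]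

/-- the apex over the segment `pq` -/
noncomputable def apex (p q : ℝ × ℝ) (τ : ℝ) : ℝ × ℝ :=
  ((p.1 + q.1) / 2 - τ * (q.2 - p.2), (p.2 + q.2) / 2 + τ * (q.1 - p.1))

theorem apex_mem_iff (S : Sq) (p q : ℝ × ℝ) (τ : ℝ) : apex p q τ ∈ S.set ↔
    |(((p.1 - S.x) * S.u + (p.2 - S.y) * S.v) + ((q.1 - S.x) * S.u + (q.2 - S.y) * S.v)) / 2 +
      -τ * ((-((q.1 - S.x) * S.v) + (q.2 - S.y) * S.u) -
        (-((p.1 - S.x) * S.v) + (p.2 - S.y) * S.u))| ≤ 1 / 2 ∧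
    |((-((p.1 - S.x) * S.v) + (p.2 - S.y) * S.u) + (-((q.1 - S.x) * S.v) + (q.2 - S.y) * S.u)) / 2
      + τ * (((q.1 - S.x) * S.u + (q.2 - S.y) * S.v) -
        ((p.1 - S.x) * S.u + (p.2 - S.y) * S.v))| ≤ 1 / 2 := by
  simp only [Sq.set, apex, mem_ofPred_eq]
  congr! 3 <;> ring

theorem apex_one {S : Sq} {p q : ℝ × ℝ} (hp : p ∈ S.set) (hq : q ∈ S.set) {τ : ℝ}
    (h0 : 0 ≤ τ) (h1 : τ ≤ 1 / 2) : apex p q τ ∈ S.set ∨ apex p q (-τ) ∈ S.set := by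
  rw [apex_mem_iff, apex_mem_iff]
  obtain ⟨a1, a2⟩ := hp
  obtain ⟨b1, b2⟩ := hq
  generalize (p.1 - S.x) * S.u + (p.2 - S.y) * S.v = p1 at *
  generalize -((p.1 - S.x) * S.v) + (p.2 - S.y) * S.u = p2 at *
  generalize (q.1 - S.x) * S.u + (q.2 - S.y) * S.v = q1 at *
  generalize -((q.1 - S.x) * S.v) + (q.2 - S.y) * S.u = q2 at *
  have c1 : |q1 - p1| ≤ 1 := (abs_sub _ _).trans (by linarith)
  have c2 : |q2 - p2| ≤ 1 := (abs_sub _ _).trans (by linarith)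
  have d1 : |τ * (q1 - p1)| ≤ |q1 - p1| / 2 := by
    rw [abs_mul, abs_of_nonneg h0]; nlinarith [abs_nonneg (q1 - p1)]
  have d2 : |τ * (q2 - p2)| ≤ |q2 - p2| / 2 := by
    rw [abs_mul, abs_of_nonneg h0]; nlinarith [abs_nonneg (q2 - p2)]
  rcases le_total |q1 - p1| |q2 - p2| with h | h
  · rcases mid_le' a1 b1 (w := τ * (q2 - p2)) (by linarith) with e | e
    · right
      refine ⟨by simpa using e, mid_le a2 b2 ?_⟩
      rw [neg_mul, abs_neg]; linarith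
    · left
      refine ⟨by simpa [sub_eq_add_neg] using e, mid_le a2 b2 (by linarith)⟩
  · rcases mid_le' a2 b2 (w := τ * (q1 - p1)) (by linarith) with e | e
    · left
      refine ⟨mid_le a1 b1 ?_, e⟩
      rw [neg_mul, abs_neg]; linarith
    · right
      refine ⟨mid_le a1 b1 ?_, by simpa [sub_eq_add_neg] using e⟩
      rw [neg_neg]; linarith

theorem small_mul {α β τ : ℝ} (h : |τ| * (α ^ 2 + β ^ 2) ≤ |α * β| / 2) :
    |τ * β| ≤ |α| / 2 := by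
  rw [abs_mul] at h ⊢
  rcases eq_or_lt_of_le (abs_nonneg β) with h0 | h0
  · rw [← h0]; simp only [mul_zero]; positivity
  · refine le_of_mul_le_mul_right ?_ h0
    have e1 : |β| * |β| = β ^ 2 := by rw [← sq, sq_abs]
    rw [mul_assoc, e1]
    nlinarith [mul_nonneg (abs_nonneg τ) (sq_nonneg α)]

theorem apex_both {S : Sq} {p q : ℝ × ℝ} (hp : p ∈ S.set) (hq : q ∈ S.set) {τ : ℝ}
    (h : |τ| * ((q.1 - p.1) ^ 2 + (q.2 - p.2) ^ 2) ≤
      |((q.1 - p.1) * S.u + (q.2 - p.2) * S.v) * (-((q.1 - p.1) * S.v) + (q.2 - p.2) * S.u)| / 2) :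
    apex p q τ ∈ S.set := by
  rw [apex_mem_iff]
  obtain ⟨a1, a2⟩ := hp
  obtain ⟨b1, b2⟩ := hq
  have e1 : (q.1 - p.1) * S.u + (q.2 - p.2) * S.v = ((q.1 - S.x) * S.u + (q.2 - S.y) * S.v) -
    ((p.1 - S.x) * S.u + (p.2 - S.y) * S.v) := by ring
  have e2 : -((q.1 - p.1) * S.v) + (q.2 - p.2) * S.u = (-((q.1 - S.x) * S.v) + (q.2 - S.y) * S.u) -
    (-((p.1 - S.x) * S.v) + (p.2 - S.y) * S.u) := by ring
  have e3 : (q.1 - p.1) ^ 2 + (q.2 - p.2) ^ 2 = ((q.1 - p.1) * S.u + (q.2 - p.2) * S.v) ^ 2 +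
      (-((q.1 - p.1) * S.v) + (q.2 - p.2) * S.u) ^ 2 := by
    linear_combination (-((q.1 - p.1) ^ 2 + (q.2 - p.2) ^ 2)) * S.h
  rw [e3, e1, e2] at h
  generalize (p.1 - S.x) * S.u + (p.2 - S.y) * S.v = p1 at *
  generalize -((p.1 - S.x) * S.v) + (p.2 - S.y) * S.u = p2 at *
  generalize (q.1 - S.x) * S.u + (q.2 - S.y) * S.v = q1 at *
  generalize -((q.1 - S.x) * S.v) + (q.2 - S.y) * S.u = q2 at *
  refine ⟨mid_le a1 b1 ?_, mid_le a2 b2 ?_⟩
  · rw [neg_mul, abs_neg]; exact small_mul h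
  · refine small_mul (β := q1 - p1) (α := q2 - p2) ?_
    rwa [add_comm, mul_comm (q2 - p2)]

theorem vol_triangle {K : Set (ℝ × ℝ)} (hK : Convex ℝ K) {p q : ℝ × ℝ} {τ : ℝ} (hp : p ∈ K)
    (hq : q ∈ K) (hr : apex p q τ ∈ K) :
    ENNReal.ofReal (|τ| * ((q.1 - p.1) ^ 2 + (q.2 - p.2) ^ 2) / 4) ≤ volume K := by
  have h := vol_param p (q - p) (apex p q τ - p) (Icc 0 (1 / 2) ×ˢ Icc 0 (1 / 2))
  refine le_trans (le_of_eq ?_) (h.symm.le.trans (measure_mono ?_))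
  · rw [vol_box, ← ENNReal.ofReal_mul (by norm_num), ← ENNReal.ofReal_mul (abs_nonneg _)]
    congr 1
    have : (q - p).1 * (apex p q τ - p).2 - (q - p).2 * (apex p q τ - p).1 =
        τ * ((q.1 - p.1) ^ 2 + (q.2 - p.2) ^ 2) := by
      simp only [apex, Prod.fst_sub, Prod.snd_sub]; ring
    rw [this, abs_mul, abs_of_nonneg (by positivity : 0 ≤ (q.1 - p.1) ^ 2 + (q.2 - p.2) ^ 2)]
    ring
  · rintro _ ⟨⟨s, t⟩, ⟨hs, ht⟩, rfl⟩
    have h1 := hK.add_smul_sub_mem hp hq (t := 2 * s) ⟨by linarith [hs.1], by linarith [hs.2]⟩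
    have h2 := hK.add_smul_sub_mem hp hr (t := 2 * t) ⟨by linarith [ht.1], by linarith [ht.2]⟩
    have h3 := hK h1 h2 (show (0 : ℝ) ≤ 1 / 2 by norm_num) (show (0 : ℝ) ≤ 1 / 2 by norm_num)
      (by norm_num)
    convert h3 using 1
    simp only [smul_add, smul_smul]
    module

theorem abs_le_of_circle {X Y l : ℝ} (hl : 0 ≤ l) (h : X ^ 2 + Y ^ 2 = l ^ 2) : |Y| ≤ l :=
  abs_le_of_sq_le_sq (by nlinarith [sq_nonneg X]) hl

theorem tilt_core {A C A' C' P R l : ℝ} (h : A ^ 2 + C ^ 2 = 1) (h' : A' ^ 2 + C' ^ 2 = 1)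
    (hl : 0 ≤ l) (hPR : P ^ 2 + R ^ 2 = l ^ 2) :
    abs (|A| - |A'|) * l ≤ |R * C - P * A| + |R * C' - P * A'| := by
  have hE : |C * C' + A * A'| ≤ 1 := abs_le_of_circle (X := A * C' - C * A') zero_le_one
    (by linear_combination (A' ^ 2 + C' ^ 2) * h + h')
  have hC : |C| ≤ 1 := abs_le_of_circle (X := A) zero_le_one (by linear_combination h)
  have hC' : |C'| ≤ 1 := abs_le_of_circle (X := A') zero_le_one (by linear_combination h')
  have s1 : abs (|A| - |A'|) ≤ |A * C' - C * A'| := by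
    have e1 : A = (A * C' - C * A') * C' + (C * C' + A * A') * A' := by
      linear_combination (-A) * h'
    have e2 : A' = -((A * C' - C * A') * C) + (C * C' + A * A') * A := by
      linear_combination (-A') * h
    have f1 := (congrArg abs e1).le.trans (abs_add_le _ _)
    have f2 := (congrArg abs e2).le.trans (abs_add_le _ _)
    rw [abs_neg] at f2
    rw [abs_mul, abs_mul] at f1 f2
    rw [abs_le]
    constructor <;> nlinarith [abs_nonneg A, abs_nonneg A', abs_nonneg (A * C' - C * A')]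
  refine (mul_le_mul_of_nonneg_right s1 hl).trans ?_
  rcases eq_or_lt_of_le hl with h0 | h0
  · rw [← h0, mul_zero]; positivity
  have hY : |P * C + R * A| ≤ l := abs_le_of_circle (X := R * C - P * A) hl
    (by linear_combination (P ^ 2 + R ^ 2) * h + hPR)
  have hY' : |P * C' + R * A'| ≤ l := abs_le_of_circle (X := R * C' - P * A') hl
    (by linear_combination (P ^ 2 + R ^ 2) * h' + hPR)
  have e : (A * C' - C * A') * l ^ 2 = (R * C' - P * A') * (P * C + R * A) -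
      (R * C - P * A) * (P * C' + R * A') := by
    linear_combination (-(A * C' - C * A')) * hPR
  have f := (congrArg abs e).le.trans (abs_sub _ _)
  rw [abs_mul, abs_mul, abs_mul, abs_of_nonneg (sq_nonneg l)] at f
  refine le_of_mul_le_mul_right ?_ h0
  nlinarith [abs_nonneg (R * C' - P * A'), abs_nonneg (R * C - P * A)]

theorem tilt_le (S S' : Sq) (e1 e2 : ℝ) :
    |S.a - S'.a| * (e1 ^ 2 + e2 ^ 2) ≤
      2 * |(e1 * S.u + e2 * S.v) * (-(e1 * S.v) + e2 * S.u)| +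
      2 * |(e1 * S'.u + e2 * S'.v) * (-(e1 * S'.v) + e2 * S'.u)| := by
  have h := tilt_core (A := 2 * S.u * S.v) (C := S.u ^ 2 - S.v ^ 2) (A' := 2 * S'.u * S'.v)
    (C' := S'.u ^ 2 - S'.v ^ 2) (P := e1 ^ 2 - e2 ^ 2) (R := 2 * e1 * e2) (l := e1 ^ 2 + e2 ^ 2)
    (by linear_combination (S.u ^ 2 + S.v ^ 2 + 1) * S.h)
    (by linear_combination (S'.u ^ 2 + S'.v ^ 2 + 1) * S'.h) (by positivity) (by ring)
  refine h.trans (le_of_eq ?_)
  have e : ∀ u v : ℝ, |2 * e1 * e2 * (u ^ 2 - v ^ 2) - (e1 ^ 2 - e2 ^ 2) * (2 * u * v)| =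
      2 * |(e1 * u + e2 * v) * (-(e1 * v) + e2 * u)| := by
    intro u v
    rw [← abs_two, ← abs_mul, abs_two]
    congr 1
    ring
  rw [e, e]

theorem overlap {S S' : Sq} {p q : ℝ × ℝ} (hp : p ∈ S.set) (hq : q ∈ S.set) (hp' : p ∈ S'.set)
    (hq' : q ∈ S'.set) :
    ENNReal.ofReal (|S.a - S'.a| * ((q.1 - p.1) ^ 2 + (q.2 - p.2) ^ 2) / 32) ≤
      volume (S.set ∩ S'.set) := by
  wlog h : |((q.1 - p.1) * S.u + (q.2 - p.2) * S.v) * (-((q.1 - p.1) * S.v) + (q.2 - p.2) * S.u)| ≤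
      |((q.1 - p.1) * S'.u + (q.2 - p.2) * S'.v) * (-((q.1 - p.1) * S'.v) + (q.2 - p.2) * S'.u)|
      generalizing S S'
  · rw [abs_sub_comm, inter_comm]
    exact this hp' hq' hp hq (le_of_not_ge h)
  have h1 := tilt_le S S' (q.1 - p.1) (q.2 - p.2)
  have h2 : |S.a - S'.a| ≤ 1 := by
    rw [abs_le]
    constructor <;> linarith [S.a_nonneg, S.a_le_one, S'.a_nonneg, S'.a_le_one]
  have key : ∀ τ : ℝ, |τ| = |S.a - S'.a| / 8 → apex p q τ ∈ S.set →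
      ENNReal.ofReal (|S.a - S'.a| * ((q.1 - p.1) ^ 2 + (q.2 - p.2) ^ 2) / 32) ≤
        volume (S.set ∩ S'.set) := by
    intro τ hτ hm
    have hm' : apex p q τ ∈ S'.set := apex_both hp' hq' (by rw [hτ]; linarith)
    have := vol_triangle (S.convex.inter S'.convex) ⟨hp, hp'⟩ ⟨hq, hq'⟩ ⟨hm, hm'⟩
    rw [hτ] at this
    refine le_trans (le_of_eq ?_) this
    congr 1
    ring
  have h0 : 0 ≤ |S.a - S'.a| / 8 := by positivity
  rcases apex_one hp hq h0 (by linarith) with e | e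
  · exact key _ (abs_of_nonneg h0) e
  · exact key _ (by rw [abs_neg, abs_of_nonneg h0]) e

end Pool.Agent.MP_1fa752_co.H51
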