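import Mathlib
import Pool.Agent.MP_1fa752_co.H51.Geo

/-! A change of tilt along a band of parallel segments forces an overlap. -/

namespace Pool.Agent.MP_1fa752_co.H51

open MeasureTheory Set

theorem gap {κ : Type} [DecidableEq κ] (a : κ → ℝ) (F : Finset κ) (hF : F.card ≤ 100) {i0 i1 : κ}
    (hi0 : i0 ∈ F) (hlt : a i1 < a i0) :
    ∃ τ, a i1 ≤ τ ∧ τ + (a i0 - a i1) / 100 ≤ a i0 ∧
      ∀ i ∈ F, a i ≤ τ ∨ τ + (a i0 - a i1) / 100 ≤ a i := by
  by_contra hc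
  push Not at hc
  set g := (a i0 - a i1) / 100 with hg
  have hg0 : 0 < g := by rw [hg]; linarith
  have h : ∀ r : ℕ, ∃ i, r < 100 → i ∈ F.erase i0 ∧ a i1 + r * g < a i ∧
      a i < a i1 + r * g + g := by
    intro r
    by_cases hr : r < 100
    · have h1 : (r : ℝ) + 1 ≤ 100 := by exact_mod_cast hr
      have h2 : a i1 + r * g + g ≤ a i0 := by nlinarith
      obtain ⟨i, hi, h3, h4⟩ := hc (a i1 + r * g) (by nlinarith [Nat.cast_nonneg (α := ℝ) r]) h2
      refine ⟨i, fun _ => ⟨Finset.mem_erase.2 ⟨?_, hi⟩, h3, h4⟩⟩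
      rintro rfl
      linarith
    · exact ⟨i0, fun h => absurd h hr⟩
  choose f hf using h
  have h1 : (Finset.range 100).card ≤ (F.erase i0).card := by
    refine Finset.card_le_card_of_injOn f (fun r hr => (hf r (by simpa using hr)).1) ?_
    intro r hr r' hr' e
    obtain ⟨-, a1, a2⟩ := hf r (by simpa using hr)
    obtain ⟨-, b1, b2⟩ := hf r' (by simpa using hr')
    rw [e] at a1 a2
    have c1 : (r : ℝ) < r' + 1 := by nlinarith
    have c2 : (r' : ℝ) < r + 1 := by nlinarith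
    have d1 : r < r' + 1 := by exact_mod_cast c1
    have d2 : r' < r + 1 := by exact_mod_cast c2
    omega
  rw [Finset.card_range, Finset.card_erase_of_mem hi0] at h1
  have := Finset.card_pos.2 ⟨i0, hi0⟩
  omega

theorem osc {κ : Type} [DecidableEq κ] (S : κ → Sq) (F : Finset κ) (hF : F.card ≤ 100)
    {i0 i1 : κ} (hi0 : i0 ∈ F) (hi1 : i1 ∈ F) (x y x' y' : ℝ) (hxy : |x' - x| ≤ |y' - y|)
    (h0 : ∀ s : ℝ, |s| ≤ 1 / 4 → (x + s, y) ∈ (S i0).set)
    (h1 : ∀ s : ℝ, |s| ≤ 1 / 4 → (x' + s, y') ∈ (S i1).set)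
    (hc : ∀ s : ℝ, |s| ≤ 1 / 4 → ∀ t ∈ Icc (0 : ℝ) 1,
      ∃ i ∈ F, (x + s + t * (x' - x), y + t * (y' - y)) ∈ (S i).set)
    (hlt : (S i1).a < (S i0).a) :
    ∃ i ∈ F, ∃ j ∈ F, i ≠ j ∧
      ENNReal.ofReal (((S i0).a - (S i1).a) / 10 ^ 13) ≤ volume ((S i).set ∩ (S j).set) := by
  obtain ⟨τ, t1, t2, t3⟩ := gap (fun i => (S i).a) F hF hi0 hlt
  set g := ((S i0).a - (S i1).a) / 100 with hg
  have hg0 : 0 < g := by rw [hg]; linarith
  have cross : ∀ s : ℝ, |s| ≤ 1 / 4 → ∃ (t : ℝ) (p : κ × κ), p ∈ F ×ˢ F ∧ τ + g ≤ (S p.1).a ∧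
      (S p.2).a ≤ τ ∧ (x + s + t * (x' - x), y + t * (y' - y)) ∈ (S p.1).set ∧
      (x + s + t * (x' - x), y + t * (y' - y)) ∈ (S p.2).set := by
    intro s hs
    have hγ : Continuous fun t : ℝ => (x + s + t * (x' - x), y + t * (y' - y)) := by fun_prop
    have c1 : IsClosed (⋃ i ∈ F.filter (fun i => τ + g ≤ (S i).a), (S i).set) :=
      isClosed_biUnion_finset fun i _ => (S i).isClosed
    have c2 : IsClosed (⋃ i ∈ F.filter (fun i => (S i).a ≤ τ), (S i).set) :=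
      isClosed_biUnion_finset fun i _ => (S i).isClosed
    obtain ⟨t, -, ht1, ht2⟩ := isPreconnected_closed_iff.1 (isPreconnected_Icc (a := (0 : ℝ))
      (b := 1)) _ _ (c1.preimage hγ) (c2.preimage hγ) (by
        intro t ht
        obtain ⟨i, hi, hm⟩ := hc s hs t ht
        rcases t3 i hi with e | e
        · exact Or.inr (mem_biUnion (Finset.mem_coe.2 (Finset.mem_filter.2 ⟨hi, e⟩)) hm)
        · exact Or.inl (mem_biUnion (Finset.mem_coe.2 (Finset.mem_filter.2 ⟨hi, e⟩)) hm))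
      ⟨0, ⟨le_rfl, zero_le_one⟩,
        mem_biUnion (Finset.mem_coe.2 (Finset.mem_filter.2 ⟨hi0, t2⟩)) (by simpa using h0 s hs)⟩
      ⟨1, ⟨zero_le_one, le_rfl⟩,
        mem_biUnion (Finset.mem_coe.2 (Finset.mem_filter.2 ⟨hi1, t1⟩)) (by
          have := h1 s hs
          convert this using 2 <;> ring)⟩
    simp only [mem_preimage, mem_iUnion, Finset.mem_filter, exists_prop] at ht1 ht2
    obtain ⟨i, ⟨hi, a1⟩, m1⟩ := ht1
    obtain ⟨j, ⟨hj, a2⟩, m2⟩ := ht2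
    exact ⟨t, (i, j), Finset.mem_product.2 ⟨hi, hj⟩, a1, a2, m1, m2⟩
  have h : ∀ r : ℕ, ∃ (t : ℝ) (p : κ × κ), r < 10001 → p ∈ F ×ˢ F ∧ τ + g ≤ (S p.1).a ∧
      (S p.2).a ≤ τ ∧ (x + (-1 / 4 + r / 20000) + t * (x' - x), y + t * (y' - y)) ∈ (S p.1).set ∧
      (x + (-1 / 4 + r / 20000) + t * (x' - x), y + t * (y' - y)) ∈ (S p.2).set := by
    intro r
    by_cases hr : r < 10001
    · have e1 : (r : ℝ) ≤ 10000 := by exact_mod_cast Nat.lt_succ_iff.1 hr
      obtain ⟨t, p, hp⟩ := cross (-1 / 4 + r / 20000) (by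
        rw [abs_le]; constructor <;> linarith [Nat.cast_nonneg (α := ℝ) r])
      exact ⟨t, p, fun _ => hp⟩
    · exact ⟨0, (i0, i0), fun h => absurd h hr⟩
  choose t p hp using h
  obtain ⟨r, hr, r', hr', hne, he⟩ := Finset.exists_ne_map_eq_of_card_lt_of_maps_to
    (s := Finset.range 10001) (t := F ×ˢ F) (f := p) (by
      rw [Finset.card_range, Finset.card_product]
      have := Nat.mul_le_mul hF hF
      omega) (fun r hr => (hp r (by simpa using hr)).1)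
  obtain ⟨m, a1, a2, b1, b2⟩ := hp r (by simpa using hr)
  obtain ⟨-, -, -, b3, b4⟩ := hp r' (by simpa using hr')
  rw [← he] at b3 b4
  refine ⟨(p r).1, (Finset.mem_product.1 m).1, (p r).2, (Finset.mem_product.1 m).2, ?_, ?_⟩
  · intro e
    rw [e] at a1
    linarith
  refine le_trans (ENNReal.ofReal_le_ofReal ?_) (overlap b1 b3 b2 b4)
  dsimp only
  have d1 : g ≤ |(S (p r).1).a - (S (p r).2).a| := le_trans (by linarith) (le_abs_self _)
  have d2 : (1 : ℝ) ≤ ((r' : ℝ) - r) ^ 2 := by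
    have : (1 : ℤ) ≤ ((r' : ℤ) - r) ^ 2 := by
      have : (r' : ℤ) - r ≠ 0 := by omega
      have h5 : 0 < ((r' : ℤ) - r) ^ 2 := by positivity
      exact h5
    exact_mod_cast this
  have d3 : (x' - x) ^ 2 ≤ (y' - y) ^ 2 := sq_le_sq.2 hxy
  have d4 : 1 / (8 * 10 ^ 8) ≤ (x + (-1 / 4 + r' / 20000) + t r' * (x' - x) -
      (x + (-1 / 4 + r / 20000) + t r * (x' - x))) ^ 2 +
      (y + t r' * (y' - y) - (y + t r * (y' - y))) ^ 2 := by
    have e1 : x + (-1 / 4 + r' / 20000) + t r' * (x' - x) -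
      (x + (-1 / 4 + r / 20000) + t r * (x' - x)) = ((r' : ℝ) - r) / 20000 +
        (t r' - t r) * (x' - x) := by ring
    have e2 : y + t r' * (y' - y) - (y + t r * (y' - y)) = (t r' - t r) * (y' - y) := by ring
    rw [e1, e2]
    have e3 : ((t r' - t r) * (x' - x)) ^ 2 ≤ ((t r' - t r) * (y' - y)) ^ 2 := by
      rw [mul_pow, mul_pow]; exact mul_le_mul_of_nonneg_left d3 (sq_nonneg _)
    nlinarith [sq_nonneg (((r' : ℝ) - r) / 20000 + 2 * ((t r' - t r) * (x' - x)))]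
  have d5 := mul_le_mul d1 d4 (by norm_num) (abs_nonneg _)
  rw [hg] at d5
  linarith

end Pool.Agent.MP_1fa752_co.H51
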