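import Mathlib
import Pool.Agent.MP_1fa752_co.H51.Osc

/-! The tilt of a square is bounded by the waste in a vertical strip around it. -/

namespace Pool.Agent.MP_1fa752_co.H51

open MeasureTheory Set

/-- the half-open big square -/
def Q0 (L : ℝ) : Set (ℝ × ℝ) := Ioc 0 L ×ˢ Ioc 0 L

/-- `ν` is the waste measure of the cover `S` of the square of side `L` -/
structure Waste {ι : Type} [Fintype ι] (S : ι → Sq) (L : ℝ) (ν : Measure (ℝ × ℝ)) : Prop where
  fin : IsFiniteMeasure ν
  eq : ∀ B, MeasurableSet B → ν B + volume (Q0 L ∩ B) = ∑ i, volume ((S i).set ∩ B)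
  cov : ∀ p ∈ Icc 0 L ×ˢ Icc 0 L, ∃ i, p ∈ (S i).set

variable {ι : Type} [Fintype ι] [DecidableEq ι] {S : ι → Sq} {L : ℝ} {ν : Measure (ℝ × ℝ)}

theorem Waste.pair_le (h : Waste S L ν) {i j : ι} (hij : i ≠ j) :
    volume ((S i).set ∩ (S j).set) ≤ ν ((S i).set ∩ (S j).set) := by
  set B := (S i).set ∩ (S j).set with hB
  have h1 := h.eq B ((S i).meas.inter (S j).meas)
  have h2 : volume B + volume B ≤ ∑ k, volume ((S k).set ∩ B) := by
    have := Finset.sum_le_sum_of_subset (f := fun k => volume ((S k).set ∩ B))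
      (Finset.subset_univ {i, j})
    rw [Finset.sum_pair hij, inter_eq_right.2 inter_subset_left,
      inter_eq_right.2 inter_subset_right] at this
    exact this
  have h3 : volume B ≠ ⊤ :=
    ne_top_of_le_ne_top (by rw [(S i).vol]; simp) (measure_mono inter_subset_left)
  rw [← h1] at h2
  exact (ENNReal.add_le_add_iff_right h3).1
    (h2.trans (add_le_add le_rfl (measure_mono inter_subset_right)))

omit [DecidableEq ι] in
theorem Waste.out_le (h : Waste S L ν) {B : Set (ℝ × ℝ)} (hB : MeasurableSet B)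
    (hd : Q0 L ∩ B = ∅) : ∑ i, volume ((S i).set ∩ B) = ν B := by
  rw [← h.eq B hB, hd, measure_empty, add_zero]

omit [DecidableEq ι] in
theorem Waste.count (h : Waste S L ν) {B : Set (ℝ × ℝ)} (hB : MeasurableSet B) (F : Finset ι)
    (hF : ∀ i ∈ F, (S i).set ⊆ B) : (F.card : ENNReal) ≤ ν B + volume B := by
  calc (F.card : ENNReal) = ∑ i ∈ F, volume ((S i).set ∩ B) := by
        rw [Finset.card_eq_sum_ones, Nat.cast_sum]
        refine Finset.sum_congr rfl fun i hi => ?_
        rw [inter_eq_left.2 (hF i hi), Sq.vol, Nat.cast_one]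
    _ ≤ ∑ i, volume ((S i).set ∩ B) := Finset.sum_le_sum_of_subset (Finset.subset_univ _)
    _ = ν B + volume (Q0 L ∩ B) := (h.eq B hB).symm
    _ ≤ _ := add_le_add le_rfl (measure_mono inter_subset_right)

/-- the virtual square below the bottom side -/
noncomputable def virt (x : ℝ) : Sq := ⟨x, -1 / 2, 1, 0, by norm_num⟩

theorem sub_box {T : Sq} {p : ℝ × ℝ} (hp : p ∈ T.set) {x0 y : ℝ} (h1 : |p.1 - x0| ≤ 1)
    (h2 : y - 4 ≤ p.2) (h3 : p.2 ≤ y) :
    T.set ⊆ Icc (x0 - 5 / 2) (x0 + 5 / 2) ×ˢ Ico (y - 6) (y + 2) := by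
  intro q hq
  obtain ⟨a1, a2⟩ := Sq.near hp
  obtain ⟨b1, b2⟩ := Sq.near hq
  rw [abs_le] at a1 a2 b1 b2 h1
  refine ⟨⟨?_, ?_⟩, ?_, ?_⟩ <;> linarith [a1.1, a1.2, a2.1, a2.2, b1.1, b1.2, b2.1, b2.2, h1.1, h1.2]

theorem Waste.link (h : Waste S L ν) {x0 : ℝ} (hx0 : 1 ≤ x0) (hx1 : x0 ≤ L - 1) (i : ι)
    (hx : |(S i).x - x0| ≤ 3 / 4) (hy : (S i).y ≤ L) (j : Option ι) (x' y' : ℝ)
    (hx' : |x' - x0| ≤ 3 / 4) (hy0 : 0 ≤ y') (hy1 : (S i).y - 4 ≤ y')
    (hxy : |x' - (S i).x| ≤ (S i).y - y')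
    (hj : ∀ s : ℝ, |s| ≤ 1 / 4 → (x' + s, y') ∈ (j.elim (virt (S i).x) S).set) :
    (S i).a ≤ (j.elim (virt (S i).x) S).a +
      10 ^ 13 * ν.real (Icc (x0 - 5 / 2) (x0 + 5 / 2) ×ˢ Ico ((S i).y - 6) ((S i).y + 2)) := by
  classical
  have := h.fin
  set x := (S i).x with hxdef
  set y := (S i).y with hydef
  set B := Icc (x0 - 5 / 2) (x0 + 5 / 2) ×ˢ Ico (y - 6) (y + 2) with hB
  have hBm : MeasurableSet B := measurableSet_Icc.prod measurableSet_Ico
  set T : Option ι → Sq := fun j => j.elim (virt x) S with hT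
  have hyy : y' ≤ y := by linarith [abs_nonneg (x' - x)]
  have hW : 0 ≤ ν.real B := measureReal_nonneg
  by_cases hbig : 1 ≤ ν.real B
  · linarith [(S i).a_le_one, (T j).a_nonneg]
  by_cases hlt : (S i).a ≤ (T j).a
  · linarith
  have hcard : (Finset.univ.filter fun k => (S k).set ⊆ B).card ≤ 99 := by
    have h1 := h.count hBm (Finset.univ.filter fun k => (S k).set ⊆ B)
      fun k hk => (Finset.mem_filter.1 hk).2
    have h2 : volume B = 40 := by
      rw [hB, Measure.volume_eq_prod, Measure.prod_prod, Real.volume_Icc, Real.volume_Ico,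
        ← ENNReal.ofReal_mul (by linarith), ← ENNReal.ofReal_ofNat]
      congr 1
      ring
    have h3 : ν B ≤ 1 := by
      rw [← ENNReal.ofReal_toReal (measure_ne_top ν B), ← ENNReal.ofReal_one]
      exact ENNReal.ofReal_le_ofReal (le_of_not_ge hbig)
    have h4 : ((Finset.univ.filter fun k => (S k).set ⊆ B).card : ENNReal) ≤ (99 : ℕ) := by
      refine h1.trans ((add_le_add h3 h2.le).trans ?_)
      norm_num
    exact_mod_cast h4
  have hmem : ∀ (k : Option ι) (p : ℝ × ℝ), p ∈ (T k).set → |p.1 - x0| ≤ 1 → y - 4 ≤ p.2 →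
      p.2 ≤ y → k ∈ Finset.insertNone (Finset.univ.filter fun k => (S k).set ⊆ B) := by
    intro k p hp a1 a2 a3
    rcases k with _ | k
    · exact Finset.none_mem_insertNone
    · exact Finset.some_mem_insertNone.2 (Finset.mem_filter.2 ⟨Finset.mem_univ _,
        sub_box hp a1 a2 a3⟩)
  have h0 : ∀ s : ℝ, |s| ≤ 1 / 4 → (x + s, y) ∈ (T (some i)).set := by
    intro s hs
    refine (S i).mem_of_close ?_
    have := sq_le_sq' (abs_le.1 hs).1 (abs_le.1 hs).2
    simp only [← hxdef, ← hydef]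
    nlinarith
  rw [abs_le] at hx hx'
  obtain ⟨k, hk, l, hl, hkl, hv⟩ := osc T _ (by rw [Finset.card_insertNone]; omega)
    (hmem (some i) _ (h0 0 (by norm_num)) (by rw [abs_le]; constructor <;> linarith [hx.1, hx.2])
      (by linarith) le_rfl)
    (hmem j _ (hj 0 (by norm_num)) (by rw [abs_le]; constructor <;> linarith [hx'.1, hx'.2])
      hy1 hyy) x y x' y' (hxy.trans (by rw [abs_sub_comm]; exact le_abs_self _)) h0 hj (by
      intro s hs t ht
      rw [abs_le] at hs
      have c1 : x0 - 1 ≤ x + s + t * (x' - x) := by nlinarith [ht.1, ht.2, hx.1, hx'.1, hs.1]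
      have c2 : x + s + t * (x' - x) ≤ x0 + 1 := by nlinarith [ht.1, ht.2, hx.2, hx'.2, hs.2]
      have c3 : y' ≤ y + t * (y' - y) := by nlinarith [ht.1, ht.2]
      have c4 : y + t * (y' - y) ≤ y := by nlinarith [ht.1, ht.2]
      obtain ⟨k, hk⟩ := h.cov (x + s + t * (x' - x), y + t * (y' - y))
        ⟨⟨by linarith, by linarith⟩, ⟨by linarith, by linarith⟩⟩
      exact ⟨some k, hmem (some k) _ hk (by rw [abs_le]; constructor <;> linarith) (by linarith) c4,
        hk⟩) (lt_of_not_ge hlt)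
  have hvirt : ∀ k, (S k).set ⊆ B → volume ((S k).set ∩ (virt x).set) ≤ ν B := by
    intro k hk
    have e := h.out_le ((S k).meas.inter (virt x).meas) (by
      refine eq_empty_of_forall_notMem fun p hp => ?_
      have a1 := hp.1.2.1
      have a2 := (abs_le.1 hp.2.2.2).2
      simp only [virt] at a2
      linarith)
    refine le_trans ?_ (e.le.trans (measure_mono (inter_subset_left.trans hk)))
    refine le_trans (le_of_eq ?_) (Finset.single_le_sum
      (f := fun i => volume ((S i).set ∩ ((S k).set ∩ (virt x).set))) (fun _ _ => zero_le)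
      (Finset.mem_univ k))
    simp only [← inter_assoc, inter_self]
  have hfin : volume ((T k).set ∩ (T l).set) ≤ ν B := by
    rcases k with _ | k <;> rcases l with _ | l
    · exact absurd rfl hkl
    · rw [inter_comm]
      exact hvirt l (Finset.mem_filter.1 (Finset.some_mem_insertNone.1 hl)).2
    · exact hvirt k (Finset.mem_filter.1 (Finset.some_mem_insertNone.1 hk)).2
    · refine (h.pair_le fun e => hkl (by rw [e])).trans (measure_mono (inter_subset_left.trans ?_))
      exact (Finset.mem_filter.1 (Finset.some_mem_insertNone.1 hk)).2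
  have e := (ENNReal.ofReal_le_iff_le_toReal (measure_ne_top ν B)).1 (hv.trans hfin)
  have e2 : (T (some i)).a = (S i).a := rfl
  rw [e2, div_le_iff₀ (by norm_num)] at e
  change _ ≤ (T j).a + 10 ^ 13 * (ν B).toReal
  linarith

theorem Waste.chain (h : Waste S L ν) {x0 : ℝ} (hx0 : 1 ≤ x0) (hx1 : x0 ≤ L - 1) (i : ι)
    (hx : |(S i).x - x0| ≤ 3 / 4) (hy0 : 0 ≤ (S i).y) (hy : (S i).y ≤ L) :
    (S i).a ≤ 4 * 10 ^ 13 * ν.real (Icc (x0 - 5 / 2) (x0 + 5 / 2) ×ˢ univ) := by
  have := h.fin
  let H : ℝ → ℝ := fun t => ν.real (Icc (x0 - 5 / 2) (x0 + 5 / 2) ×ˢ Iio t)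
  have H0 : ∀ t, 0 ≤ H t := fun t => measureReal_nonneg
  have Hm : ∀ s t, s ≤ t → H s ≤ H t := fun s t hst =>
    measureReal_mono (prod_mono le_rfl (Iio_subset_Iio hst))
  have Hu : ∀ t, H t ≤ ν.real (Icc (x0 - 5 / 2) (x0 + 5 / 2) ×ˢ univ) := fun t =>
    measureReal_mono (prod_mono le_rfl (subset_univ _))
  have Hs : ∀ y, H (y + 2) = H (y - 6) +
      ν.real (Icc (x0 - 5 / 2) (x0 + 5 / 2) ×ˢ Ico (y - 6) (y + 2)) := by
    intro y
    simp only [H]
    rw [← measureReal_union _ (measurableSet_Icc.prod measurableSet_Ico), ← prod_union,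
      Iio_union_Ico_eq_Iio (by linarith)]
    exact Set.disjoint_left.2 fun p a b => absurd a.2 (not_lt.2 b.2.1)
  have key : ∀ n : ℕ, ∀ i, |(S i).x - x0| ≤ 3 / 4 → 0 ≤ (S i).y → (S i).y ≤ L →
      (S i).y < 2 * n → (S i).a ≤ 10 ^ 13 *
        (H ((S i).y + 2) + H ((S i).y) + H ((S i).y - 2) + H ((S i).y - 4)) := by
    intro n
    induction n with
    | zero => intro i _ a _ b; simp at b; linarith
    | succ n ih =>
      intro i hx hy0 hy hn
      by_cases h4 : (S i).y ≤ 4
      · have e := h.link hx0 hx1 i hx hy none (S i).x 0 hx le_rfl (by linarith) (by simpa using hy0)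
          (by
            intro s hs
            simp only [Option.elim, virt, Sq.set, mem_ofPred_eq]
            constructor
            · simpa using hs.trans (by norm_num)
            · norm_num [abs_le])
        have e2 : (Option.elim none (virt (S i).x) S).a = 0 := by simp [virt, Sq.a]
        rw [e2] at e
        linarith [Hs (S i).y, H0 ((S i).y - 6), H0 (S i).y, H0 ((S i).y - 2), H0 ((S i).y - 4)]
      · obtain ⟨k, hk⟩ := h.cov (x0, (S i).y - 3) ⟨⟨by linarith, by linarith⟩,
          ⟨by linarith, by linarith⟩⟩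
        obtain ⟨a1, a2⟩ := Sq.near hk
        dsimp only at a1 a2
        rw [abs_sub_comm] at a1
        have a3 := abs_le.1 a1
        have a4 := abs_le.1 hx
        rw [abs_le] at a2
        have e := h.link hx0 hx1 i hx hy (some k) (S k).x (S k).y a1 (by linarith [a2.2])
          (by linarith [a2.2]) (by rw [abs_le]; constructor <;> linarith [a2.1, a3.1, a3.2, a4.1, a4.2])
          (by
            intro s hs
            refine (S k).mem_of_close ?_
            have := sq_le_sq' (abs_le.1 hs).1 (abs_le.1 hs).2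
            simp only
            nlinarith)
        have e2 : (Option.elim (some k) (virt (S i).x) S).a = (S k).a := rfl
        rw [e2] at e
        have e3 := ih k a1 (by linarith [a2.2]) (by linarith [a2.1]) (by push_cast at hn; linarith [a2.1])
        linarith [Hs (S i).y, Hm ((S k).y + 2) (S i).y (by linarith [a2.1]),
          Hm (S k).y ((S i).y - 2) (by linarith [a2.1]),
          Hm ((S k).y - 2) ((S i).y - 4) (by linarith [a2.1]),
          Hm ((S k).y - 4) ((S i).y - 6) (by linarith [a2.1])]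
  obtain ⟨n, hn⟩ := exists_nat_gt (S i).y
  have := key n i hx hy0 hy (by linarith)
  linarith [Hu ((S i).y + 2), Hu (S i).y, Hu ((S i).y - 2), Hu ((S i).y - 4)]

end Pool.Agent.MP_1fa752_co.H51
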