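import Mathlib
import Pool.Agent.MP_1fa752_co.H51.Geo

/-! Horizontal lines at mutual distance more than one force a large total tilt. -/

namespace Pool.Agent.MP_1fa752_co.H51

open MeasureTheory Set

/-- horizontal chord of a square -/
def Sq.chord (S : Sq) (y : ℝ) : Set ℝ := {x | (x, y) ∈ S.set}

theorem vol_le_of_dist {A : Set ℝ} {D : ℝ} (h : ∀ x ∈ A, ∀ x' ∈ A, |x - x'| ≤ D) :
    volume A ≤ ENNReal.ofReal D :=
  (Real.volume_le_diam A).trans (Metric.ediam_le_of_forall_dist_le h)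

theorem keyK {p q : ℝ} (h : p ^ 2 + q ^ 2 = 1) (hq : 0 ≤ q) (hpq : q ≤ p) :
    1 ≤ p * (1 + (2 * p * q) ^ 2) := by
  have h1 : p ≤ 1 := by nlinarith
  have h2 : 7 / 10 ≤ p := by nlinarith
  have h3 : 1 ≤ 4 * p ^ 3 := by nlinarith [mul_le_mul h2 h2 (by norm_num) (by linarith)]
  nlinarith [mul_le_mul_of_nonneg_right h3 (sq_nonneg q)]

theorem Sq.a_eq (S : Sq) : S.a = 2 * |S.u| * |S.v| := by
  rw [Sq.a, abs_mul, abs_mul, abs_two]

theorem Sq.habs (S : Sq) : |S.u| ^ 2 + |S.v| ^ 2 = 1 := by rw [sq_abs, sq_abs, S.h]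

theorem Sq.chord_one (S : Sq) (y : ℝ) : volume (S.chord y) ≤ ENNReal.ofReal (1 + S.a ^ 2) := by
  refine vol_le_of_dist fun x hx x' hx' => ?_
  obtain ⟨a1, a2⟩ := hx
  obtain ⟨b1, b2⟩ := hx'
  dsimp only at a1 a2 b1 b2
  have c1 : |x - x'| * |S.u| ≤ 1 := by
    rw [← abs_mul]
    have := abs_sub ((x - S.x) * S.u + (y - S.y) * S.v) ((x' - S.x) * S.u + (y - S.y) * S.v)
    rw [show (x - S.x) * S.u + (y - S.y) * S.v - ((x' - S.x) * S.u + (y - S.y) * S.v) =
      (x - x') * S.u by ring] at this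
    linarith
  have c2 : |x - x'| * |S.v| ≤ 1 := by
    rw [← abs_mul]
    have := abs_sub (-((x' - S.x) * S.v) + (y - S.y) * S.u) (-((x - S.x) * S.v) + (y - S.y) * S.u)
    rw [show -((x' - S.x) * S.v) + (y - S.y) * S.u - (-((x - S.x) * S.v) + (y - S.y) * S.u) =
      (x - x') * S.v by ring] at this
    linarith
  rw [S.a_eq]
  rcases le_total |S.v| |S.u| with h | h
  · have k := keyK S.habs (abs_nonneg _) h
    nlinarith [mul_le_mul_of_nonneg_left k (abs_nonneg (x - x')),
      mul_le_mul_of_nonneg_right c1 (show 0 ≤ 1 + (2 * |S.u| * |S.v|) ^ 2 by positivity)]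
  · have k := keyK (p := |S.v|) (q := |S.u|) (by linarith [S.habs]) (abs_nonneg _) h
    rw [show 2 * |S.v| * |S.u| = 2 * |S.u| * |S.v| by ring] at k
    nlinarith [mul_le_mul_of_nonneg_left k (abs_nonneg (x - x')),
      mul_le_mul_of_nonneg_right c2 (show 0 ≤ 1 + (2 * |S.u| * |S.v|) ^ 2 by positivity)]

theorem Sq.chord_bound (S : Sq) {y x x' : ℝ} (hx : x ∈ S.chord y) (hx' : x' ∈ S.chord y) :
    |x - x'| * (|S.u| * |S.v|) + |y - S.y| ≤ (|S.u| + |S.v|) / 2 := by
  have aux : ∀ x x', x ∈ S.chord y → x' ∈ S.chord y →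
      |(x - x') * (S.u * S.v) + (y - S.y)| ≤ (|S.u| + |S.v|) / 2 := by
    rintro x x' ⟨a1, -⟩ ⟨-, b2⟩
    dsimp only at a1 b2
    have e : (x - x') * (S.u * S.v) + (y - S.y) = ((x - S.x) * S.u + (y - S.y) * S.v) * S.v +
        (-((x' - S.x) * S.v) + (y - S.y) * S.u) * S.u := by
      linear_combination (-(y - S.y)) * S.h
    rw [e]
    refine (abs_add_le _ _).trans ?_
    rw [abs_mul, abs_mul]
    nlinarith [abs_nonneg S.u, abs_nonneg S.v]
  have h1 := aux x x' hx hx'
  have h2 := aux x' x hx' hx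
  rw [show (x' - x) * (S.u * S.v) = -((x - x') * (S.u * S.v)) by ring] at h2
  rw [← abs_mul, ← abs_mul]
  generalize (x - x') * (S.u * S.v) = A at *
  generalize y - S.y = Y at *
  rw [abs_le] at h1 h2
  rcases abs_cases A with e | e <;> rcases abs_cases Y with f | f <;>
    linarith [h1.1, h1.2, h2.1, h2.2, e.1, f.1]

theorem Sq.chord_two (S : Sq) {y y' : ℝ} (hd : 1 < y' - y) :
    volume (S.chord y) + volume (S.chord y') ≤ ENNReal.ofReal (1 + S.a ^ 2) := by
  rcases (S.chord y).eq_empty_or_nonempty with e | ⟨x1, hx1⟩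
  · rw [e, measure_empty, zero_add]; exact S.chord_one _
  rcases (S.chord y').eq_empty_or_nonempty with e | ⟨x2, hx2⟩
  · rw [e, measure_empty, add_zero]; exact S.chord_one _
  have a1 := S.chord_bound hx1 hx1
  have a2 := S.chord_bound hx2 hx2
  simp only [sub_self, abs_zero, zero_mul, zero_add] at a1 a2
  have a3 : 1 < |y - S.y| + |y' - S.y| := by
    linarith [le_abs_self (y' - S.y), neg_abs_le (y - S.y)]
  have hp := abs_nonneg S.u
  have hq := abs_nonneg S.v
  have hpq : 0 < |S.u| * |S.v| := by nlinarith [S.habs]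
  have b1 : volume (S.chord y) ≤
      ENNReal.ofReal (((|S.u| + |S.v|) / 2 - |y - S.y|) / (|S.u| * |S.v|)) :=
    vol_le_of_dist fun x hx x' hx' => by
      rw [le_div_iff₀ hpq]; linarith [S.chord_bound hx hx']
  have b2 : volume (S.chord y') ≤
      ENNReal.ofReal (((|S.u| + |S.v|) / 2 - |y' - S.y|) / (|S.u| * |S.v|)) :=
    vol_le_of_dist fun x hx x' hx' => by
      rw [le_div_iff₀ hpq]; linarith [S.chord_bound hx hx']
  refine (add_le_add b1 b2).trans ?_
  rw [← ENNReal.ofReal_add (div_nonneg (by linarith) hpq.le) (div_nonneg (by linarith) hpq.le)]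
  refine ENNReal.ofReal_le_ofReal ?_
  rw [← add_div, div_le_iff₀ hpq, S.a_eq]
  have u1 : |S.u| ≤ 1 := by nlinarith [S.habs]
  have v1 : |S.v| ≤ 1 := by nlinarith [S.habs]
  rcases le_total |S.v| |S.u| with h | h
  · have k := keyK S.habs hq h
    nlinarith [mul_le_mul_of_nonneg_left k hq]
  · have k := keyK (p := |S.v|) (q := |S.u|) (by linarith [S.habs]) hp h
    rw [show 2 * |S.v| * |S.u| = 2 * |S.u| * |S.v| by ring] at k
    nlinarith [mul_le_mul_of_nonneg_left k hp]

theorem Sq.chord_sum (S : Sq) {d : ℝ} (hd : 1 < d) (m : ℕ) :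
    ∑ j ∈ Finset.range m, volume (S.chord (j * d)) ≤ ENNReal.ofReal (1 + S.a ^ 2) := by
  classical
  set J := (Finset.range m).filter fun j : ℕ => (S.chord (j * d)).Nonempty with hJ
  have e : ∑ j ∈ Finset.range m, volume (S.chord (j * d)) = ∑ j ∈ J, volume (S.chord (j * d)) := by
    refine (Finset.sum_filter_of_ne fun j _ hj => ?_).symm
    exact nonempty_of_measure_ne_zero hj
  rw [e]
  rcases J.eq_empty_or_nonempty with h0 | hne
  · rw [h0]; simp
  have hsub : J ⊆ {J.min' hne, J.min' hne + 1} := by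
    intro j hj
    have h1 := J.min'_le j hj
    obtain ⟨x1, hx1⟩ := (Finset.mem_filter.1 hj).2
    obtain ⟨x2, hx2⟩ := (Finset.mem_filter.1 (J.min'_mem hne)).2
    have a1 := (abs_le.1 (Sq.near hx1).2).2
    have a2 := (abs_le.1 (Sq.near hx2).2).1
    dsimp only at a1 a2
    have h2 : (j : ℝ) < (J.min' hne : ℕ) + 2 := by
      by_contra hc
      have := not_lt.1 hc
      nlinarith
    have h3 : j < J.min' hne + 2 := by exact_mod_cast h2
    simp only [Finset.mem_insert, Finset.mem_singleton]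
    omega
  refine (Finset.sum_le_sum_of_subset hsub).trans ?_
  rw [Finset.sum_pair (by omega)]
  refine S.chord_two ?_
  push_cast
  linarith

theorem lines {ι : Type} [Fintype ι] (S : ι → Sq) {L : ℝ} {n : ℕ} (hn : 0 < n) (hL : (n : ℝ) < L)
    (hcov : ∀ p ∈ Icc 0 L ×ˢ Icc 0 L, ∃ i, p ∈ (S i).set) :
    (n + 1) * L ≤ ∑ i, (1 + (S i).a ^ 2) := by
  have hn' : (0 : ℝ) < n := by exact_mod_cast hn
  have hd : 1 < L / n := by rwa [lt_div_iff₀ hn', one_mul]
  have h1 : ∀ j ∈ Finset.range (n + 1),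
      ENNReal.ofReal L ≤ ∑ i, volume ((S i).chord (j * (L / n))) := by
    intro j hj
    have hj' : (j : ℝ) ≤ n := by exact_mod_cast Nat.lt_succ_iff.1 (Finset.mem_range.1 hj)
    refine le_trans ?_ (measure_iUnion_fintype_le volume _)
    rw [← sub_zero L, ← Real.volume_Icc, sub_zero]
    refine measure_mono fun x hx => ?_
    obtain ⟨i, hi⟩ := hcov (x, j * (L / n)) ⟨hx, by positivity, by
      calc (j : ℝ) * (L / n) ≤ n * (L / n) := mul_le_mul_of_nonneg_right hj' (by linarith)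
        _ = L := by field_simp⟩
    exact mem_iUnion.2 ⟨i, hi⟩
  have h2 := Finset.sum_le_sum h1
  rw [Finset.sum_comm, Finset.sum_const, Finset.card_range] at h2
  have h3 := h2.trans (Finset.sum_le_sum fun i _ => (S i).chord_sum hd (n + 1))
  rw [← ENNReal.ofReal_sum_of_nonneg (fun i _ => by positivity), nsmul_eq_mul,
    ← ENNReal.ofReal_natCast, ← ENNReal.ofReal_mul (by positivity),
    ENNReal.ofReal_le_ofReal_iff (by positivity)] at h3
  push_cast at h3
  exact h3

end Pool.Agent.MP_1fa752_co.H51
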