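import Mathlib
import Pool.Agent.MP_1fa752_co.H51.Chain
import Pool.Agent.MP_1fa752_co.H51.Lines

/-! The lower bound for covers of a square of side slightly larger than `n`. -/

namespace Pool.Agent.MP_1fa752_co.H51

open MeasureTheory Set

variable {ι : Type} [Fintype ι] [DecidableEq ι] {S : ι → Sq} {L : ℝ} {ν : Measure (ℝ × ℝ)}

theorem Q0_meas (L : ℝ) : MeasurableSet (Q0 L) := measurableSet_Ioc.prod measurableSet_Ioc

theorem Q0_vol (L : ℝ) : volume (Q0 L) = ENNReal.ofReal L * ENNReal.ofReal L := by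
  rw [Q0, Measure.volume_eq_prod, Measure.prod_prod, Real.volume_Ioc, sub_zero]

omit [DecidableEq ι] in
theorem exists_waste (hcov : ∀ p ∈ Icc 0 L ×ˢ Icc 0 L, ∃ i, p ∈ (S i).set) :
    ∃ ν, Waste S L ν := by
  have f1 : IsFiniteMeasure (volume.restrict (Q0 L)) :=
    isFiniteMeasure_restrict.2 (by rw [Q0_vol]; finiteness)
  have f2 : ∀ i, IsFiniteMeasure (volume.restrict (S i).set) := fun i =>
    isFiniteMeasure_restrict.2 (by rw [Sq.vol]; simp)
  have hle : volume.restrict (Q0 L) ≤ ∑ i, volume.restrict (S i).set := by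
    refine Measure.le_iff.2 fun B hB => ?_
    rw [Measure.finsetSum_apply, Measure.restrict_apply hB]
    simp only [Measure.restrict_apply hB]
    refine le_trans (measure_mono fun p hp => ?_) (measure_iUnion_fintype_le volume _)
    obtain ⟨i, hi⟩ := hcov p ⟨Ioc_subset_Icc_self hp.2.1, Ioc_subset_Icc_self hp.2.2⟩
    exact mem_iUnion.2 ⟨i, hp.1, hi⟩
  refine ⟨∑ i, volume.restrict (S i).set - volume.restrict (Q0 L), inferInstance,
    fun B hB => ?_, hcov⟩
  have h := congrArg (fun m : Measure (ℝ × ℝ) => m B) (Measure.sub_add_cancel_of_le hle)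
  simp only [Measure.add_apply, Measure.finsetSum_apply, Measure.restrict_apply hB] at h
  simpa only [inter_comm B] using h

/-- reflection in the diagonal -/
def Sq.swap (S : Sq) : Sq := ⟨S.y, S.x, S.v, S.u, by rw [add_comm]; exact S.h⟩

theorem Sq.swap_set (S : Sq) : S.set = Prod.swap ⁻¹' S.swap.set := by
  ext p
  simp only [Sq.set, Sq.swap, mem_preimage, mem_ofPred_eq, Prod.fst_swap, Prod.snd_swap]
  rw [add_comm ((p.2 - S.y) * S.v), ← abs_neg (-((p.2 - S.y) * S.u) + _)]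
  congr! 3
  ring

theorem Sq.swap_a (S : Sq) : S.swap.a = S.a := by
  simp only [Sq.a, Sq.swap]; congr 1; ring

theorem vol_swap {B : Set (ℝ × ℝ)} (hB : MeasurableSet B) :
    volume (Prod.swap ⁻¹' B : Set (ℝ × ℝ)) = volume B :=
  (Measure.measurePreserving_swap (μ := (volume : Measure ℝ)) (ν := volume)).measure_preimage
    hB.nullMeasurableSet

omit [DecidableEq ι] in
theorem Waste.swap (h : Waste S L ν) : Waste (fun i => (S i).swap) L (ν.map Prod.swap) := by
  have := h.fin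
  refine ⟨inferInstance, fun B hB => ?_, fun p hp => ?_⟩
  · rw [Measure.map_apply measurable_swap hB, ← vol_swap ((Q0_meas L).inter hB)]
    have e : (Prod.swap ⁻¹' (Q0 L ∩ B) : Set (ℝ × ℝ)) = Q0 L ∩ Prod.swap ⁻¹' B := by
      rw [preimage_inter, Q0, preimage_swap_prod]
    rw [e, h.eq _ (measurable_swap hB)]
    refine Finset.sum_congr rfl fun i _ => ?_
    rw [← vol_swap ((S i).swap.meas.inter hB), preimage_inter, ← Sq.swap_set]
  · obtain ⟨i, hi⟩ := h.cov p.swap ⟨hp.2, hp.1⟩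
    refine ⟨i, ?_⟩
    rw [Sq.swap_set] at hi
    simpa using hi

theorem Waste.good1 (h : Waste S L ν) (hL : 2 ≤ L) (i : ι) (hx0 : 1 / 4 ≤ (S i).x)
    (hx1 : (S i).x ≤ L - 1 / 4) (hy0 : 0 ≤ (S i).y) (hy1 : (S i).y ≤ L) {u : ℝ}
    (hu : |u - (S i).x| ≤ 3 / 4) :
    (S i).a ≤ 4 * 10 ^ 13 * ν.real {q | |q.1 - u| ≤ 4} := by
  have := h.fin
  obtain ⟨x0, a1, a2, a3⟩ : ∃ x0, 1 ≤ x0 ∧ x0 ≤ L - 1 ∧ |(S i).x - x0| ≤ 3 / 4 := by
    by_cases c1 : (S i).x ≤ 1
    · exact ⟨1, le_rfl, by linarith, by rw [abs_le]; constructor <;> linarith⟩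
    by_cases c2 : L - 1 ≤ (S i).x
    · exact ⟨L - 1, by linarith, le_rfl, by rw [abs_le]; constructor <;> linarith⟩
    · exact ⟨(S i).x, by linarith, by linarith, by norm_num⟩
  refine (h.chain a1 a2 i a3 hy0 hy1).trans (mul_le_mul_of_nonneg_left
    (measureReal_mono fun q hq => ?_) (by norm_num))
  rw [abs_le] at hu a3
  simp only [mem_ofPred_eq, abs_le]
  constructor <;> linarith [hq.1.1, hq.1.2, hu.1, hu.2, a3.1, a3.2]

theorem Waste.good2 (h : Waste S L ν) (hL : 2 ≤ L) (i : ι) (hy0 : 1 / 4 ≤ (S i).y)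
    (hy1 : (S i).y ≤ L - 1 / 4) (hx0 : 0 ≤ (S i).x) (hx1 : (S i).x ≤ L) {u : ℝ}
    (hu : |u - (S i).y| ≤ 3 / 4) :
    (S i).a ≤ 4 * 10 ^ 13 * ν.real {q | |q.2 - u| ≤ 4} := by
  have e := h.swap.good1 hL i hy0 hy1 hx0 hx1 hu
  rw [Sq.swap_a, Measure.real, Measure.map_apply measurable_swap
    (measurableSet_le (by fun_prop) measurable_const)] at e
  exact e

theorem strip_int (ν : Measure (ℝ × ℝ)) [IsFiniteMeasure ν] {f : ℝ × ℝ → ℝ} (hf : Measurable f) :
    Measurable (fun u : ℝ => ν {q | |f q - u| ≤ 4}) ∧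
      ∫⁻ u : ℝ, ν {q | |f q - u| ≤ 4} = 8 * ν univ := by
  have hE : MeasurableSet {z : ℝ × (ℝ × ℝ) | |f z.2 - z.1| ≤ 4} :=
    measurableSet_le (by fun_prop) measurable_const
  refine ⟨measurable_measure_prodMk_left hE, ?_⟩
  have h1 := Measure.prod_apply (μ := (volume : Measure ℝ)) (ν := ν) hE
  have h2 := Measure.prod_apply_symm (μ := (volume : Measure ℝ)) (ν := ν) hE
  refine h1.symm.trans (h2.trans ?_)
  have : ∀ q : ℝ × ℝ, volume ((fun x : ℝ => (x, q)) ⁻¹' {z : ℝ × (ℝ × ℝ) | |f z.2 - z.1| ≤ 4}) =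
      8 := by
    intro q
    have e : (fun x : ℝ => (x, q)) ⁻¹' {z : ℝ × (ℝ × ℝ) | |f z.2 - z.1| ≤ 4} =
        Icc (f q - 4) (f q + 4) := by
      ext x
      simp only [mem_preimage, mem_ofPred_eq, abs_le, mem_Icc]
      constructor <;> rintro ⟨a, b⟩ <;> constructor <;> linarith
    rw [e, Real.volume_Icc, ← ENNReal.ofReal_ofNat]
    congr 1
    ring
  simp only [this, lintegral_const]

theorem Sq.bad (T : Sq) (L : ℝ) (h : ¬ (1 / 4 ≤ T.x ∧ T.x ≤ L - 1 / 4 ∧ 1 / 4 ≤ T.y ∧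
    T.y ≤ L - 1 / 4)) : 1 ≤ 20 * volume (T.set ∩ (Q0 L)ᶜ) := by
  have key : ∀ a b c d : ℝ, (b - a) * (d - c) = 1 / 20 → a ≤ b →
      Icc a b ×ˢ Icc c d ⊆ T.set ∩ (Q0 L)ᶜ → 1 ≤ 20 * volume (T.set ∩ (Q0 L)ᶜ) := by
    intro a b c d e hab hs
    refine le_trans (le_of_eq ?_) (mul_le_mul_right (measure_mono hs) 20)
    rw [vol_box, ← ENNReal.ofReal_mul (by linarith), e, ← ENNReal.ofReal_ofNat,
      ← ENNReal.ofReal_mul (by norm_num)]
    norm_num
  have cl : ∀ (p : ℝ × ℝ) (r s : ℝ), r ^ 2 + s ^ 2 ≤ 1 / 4 → -r ≤ p.1 - T.x → p.1 - T.x ≤ r →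
      -s ≤ p.2 - T.y → p.2 - T.y ≤ s → p ∈ T.set := fun p r s e a b c d =>
    T.mem_of_close (by linarith [sq_le_sq' a b, sq_le_sq' c d])
  by_cases c1 : 1 / 4 ≤ T.x
  swap
  · refine key (T.x - 7 / 20) (T.x - 1 / 4) (T.y - 1 / 4) (T.y + 1 / 4) (by ring) (by linarith) ?_
    rintro p ⟨⟨a, b⟩, c, d⟩
    exact ⟨cl p (7 / 20) (1 / 4) (by norm_num) (by linarith) (by linarith) (by linarith)
      (by linarith), fun hq => by linarith [hq.1.1]⟩
  by_cases c2 : T.x ≤ L - 1 / 4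
  swap
  · refine key (T.x + 1 / 4) (T.x + 7 / 20) (T.y - 1 / 4) (T.y + 1 / 4) (by ring) (by linarith) ?_
    rintro p ⟨⟨a, b⟩, c, d⟩
    exact ⟨cl p (7 / 20) (1 / 4) (by norm_num) (by linarith) (by linarith) (by linarith)
      (by linarith), fun hq => by linarith [hq.1.2]⟩
  by_cases c3 : 1 / 4 ≤ T.y
  swap
  · refine key (T.x - 1 / 4) (T.x + 1 / 4) (T.y - 7 / 20) (T.y - 1 / 4) (by ring) (by linarith) ?_
    rintro p ⟨⟨a, b⟩, c, d⟩
    exact ⟨cl p (1 / 4) (7 / 20) (by norm_num) (by linarith) (by linarith) (by linarith)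
      (by linarith), fun hq => by linarith [hq.2.1]⟩
  by_cases c4 : T.y ≤ L - 1 / 4
  swap
  · refine key (T.x - 1 / 4) (T.x + 1 / 4) (T.y + 1 / 4) (T.y + 7 / 20) (by ring) (by linarith) ?_
    rintro p ⟨⟨a, b⟩, c, d⟩
    exact ⟨cl p (1 / 4) (7 / 20) (by norm_num) (by linarith) (by linarith) (by linarith)
      (by linarith), fun hq => by linarith [hq.2.2]⟩
  exact absurd ⟨c1, c2, c3, c4⟩ h

theorem Waste.sum_sq (h : Waste S L ν) (hL : 2 ≤ L) :
    ∑ i, (S i).a ^ 2 ≤ 21 * ν.real univ + 64 * (4 * 10 ^ 13) ^ 2 * ν.real univ ^ 2 := by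
  have := h.fin
  obtain ⟨mF, iF⟩ := strip_int ν measurable_fst
  obtain ⟨mG, iG⟩ := strip_int ν measurable_snd
  set F : ℝ → ENNReal := fun u => ν {q | |q.1 - u| ≤ 4} with hF
  set G : ℝ → ENNReal := fun u => ν {q | |q.2 - u| ≤ 4} with hG
  set K : ENNReal := ENNReal.ofReal ((4 * 10 ^ 13) ^ 2) with hK
  set φ : ℝ × ℝ → ENNReal := fun p => min 1 (K * (F p.1 * G p.2)) with hφ
  have each : ∀ i, ENNReal.ofReal ((S i).a ^ 2) ≤
      (∫⁻ p in (S i).set, φ p) + 20 * volume ((S i).set ∩ (Q0 L)ᶜ) := by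
    intro i
    have a1 : ENNReal.ofReal ((S i).a ^ 2) ≤ 1 :=
      ENNReal.ofReal_le_one.2 (pow_le_one₀ (S i).a_nonneg (S i).a_le_one)
    by_cases c : 1 / 4 ≤ (S i).x ∧ (S i).x ≤ L - 1 / 4 ∧ 1 / 4 ≤ (S i).y ∧ (S i).y ≤ L - 1 / 4
    · obtain ⟨c1, c2, c3, c4⟩ := c
      refine le_trans ?_ le_self_add
      have e : ENNReal.ofReal ((S i).a ^ 2) =
          ∫⁻ _ in (S i).set, ENNReal.ofReal ((S i).a ^ 2) := by
        rw [setLIntegral_const, Sq.vol, mul_one]
      rw [e]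
      refine setLIntegral_mono' (S i).meas fun p hp => le_min a1 ?_
      obtain ⟨n1, n2⟩ := Sq.near hp
      have g1 := h.good1 hL i c1 c2 (by linarith) (by linarith) n1
      have g2 := h.good2 hL i c3 c4 (by linarith) (by linarith) n2
      have g3 := mul_le_mul g1 g2 (S i).a_nonneg (by positivity)
      have e1 : F p.1 = ENNReal.ofReal (ν.real {q | |q.1 - p.1| ≤ 4}) :=
        (ENNReal.ofReal_toReal (measure_ne_top _ _)).symm
      have e2 : G p.2 = ENNReal.ofReal (ν.real {q | |q.2 - p.2| ≤ 4}) :=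
        (ENNReal.ofReal_toReal (measure_ne_top _ _)).symm
      rw [e1, e2, hK, ← ENNReal.ofReal_mul measureReal_nonneg,
        ← ENNReal.ofReal_mul (by positivity)]
      refine ENNReal.ofReal_le_ofReal ?_
      nlinarith
    · exact (a1.trans ((S i).bad L c)).trans le_add_self
  have hm : ∑ i, volume.restrict (S i).set = ν + volume.restrict (Q0 L) := by
    ext B hB
    simp only [Measure.add_apply, Measure.finsetSum_apply, Measure.restrict_apply hB, inter_comm B]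
    exact (h.eq B hB).symm
  have s1 : ∑ i, ∫⁻ p in (S i).set, φ p ≤ ν univ + K * ((8 * ν univ) * (8 * ν univ)) := by
    rw [← lintegral_finsetSum_measure, hm, lintegral_add_measure]
    refine add_le_add ?_ ?_
    · refine (lintegral_mono fun p => min_le_left _ _).trans ?_
      rw [lintegral_const, one_mul]
    · refine (setLIntegral_le_lintegral _ _).trans
        ((lintegral_mono fun p => min_le_right _ _).trans (le_of_eq ?_))
      rw [lintegral_const_mul' _ _ ENNReal.ofReal_ne_top, Measure.volume_eq_prod,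
        lintegral_prod_mul mF.aemeasurable mG.aemeasurable, iF, iG]
  have s2 : ∑ i, volume ((S i).set ∩ (Q0 L)ᶜ) ≤ ν univ :=
    (h.out_le (Q0_meas L).compl (inter_compl_self _)).le.trans (measure_mono (subset_univ _))
  have s3 := Finset.sum_le_sum fun i (_ : i ∈ Finset.univ) => each i
  rw [Finset.sum_add_distrib, ← Finset.mul_sum,
    ← ENNReal.ofReal_sum_of_nonneg (fun i _ => by positivity)] at s3
  have s4 := s3.trans (add_le_add s1 (mul_le_mul_right s2 20))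
  have s5 := (ENNReal.ofReal_le_iff_le_toReal (by finiteness)).1 s4
  rw [ENNReal.toReal_add (by finiteness) (by finiteness),
    ENNReal.toReal_add (by finiteness) (by finiteness)] at s5
  simp only [ENNReal.toReal_mul, hK, ENNReal.toReal_ofNat] at s5
  rw [ENNReal.toReal_ofReal (by positivity)] at s5
  change _ ≤ 21 * (ν univ).toReal + 64 * (4 * 10 ^ 13) ^ 2 * (ν univ).toReal ^ 2
  nlinarith

theorem lower {m n : ℕ} (S : Fin m → Sq) {L : ℝ} (hn : 2 ≤ n) (hL : (n : ℝ) < L)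
    (hcov : ∀ p ∈ Icc 0 L ×ˢ Icc 0 L, ∃ i, p ∈ (S i).set) :
    1 / 10 ^ 15 * Real.sqrt n ≤ (m : ℝ) - (n : ℝ) ^ 2 := by
  wlog hL2 : L ≤ n + 1 / 2 generalizing L
  · refine this (L := n + 1 / 2) (by linarith) (fun p hp => hcov p ?_) le_rfl
    have := not_le.1 hL2
    exact ⟨⟨hp.1.1, hp.1.2.trans this.le⟩, ⟨hp.2.1, hp.2.2.trans this.le⟩⟩
  have hn' : (2 : ℝ) ≤ n := by exact_mod_cast hn
  obtain ⟨ν, h⟩ := exists_waste hcov
  have := h.fin
  have h1 := h.sum_sq (by linarith)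
  have h2 := lines S (by omega) hL hcov
  rw [Finset.sum_add_distrib, Finset.sum_const, Finset.card_univ, Fintype.card_fin, nsmul_eq_mul,
    mul_one] at h2
  have h3 : ν.real univ + L * L = m := by
    have e := h.eq univ MeasurableSet.univ
    simp only [inter_univ, Sq.vol, Q0_vol, Finset.sum_const, Finset.card_univ, Fintype.card_fin,
      nsmul_eq_mul, mul_one] at e
    have e2 := congrArg ENNReal.toReal e
    rw [ENNReal.toReal_add (by finiteness) (by finiteness), ENNReal.toReal_mul,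
      ENNReal.toReal_ofReal (by linarith)] at e2
    simpa [Measure.real] using e2
  have h4 : 0 ≤ ν.real univ := measureReal_nonneg
  set w := ν.real univ
  set k : ℝ := (m : ℝ) - (n : ℝ) ^ 2 with hk
  have h5 : w < k := by nlinarith
  have h6 : 1 ≤ k := by
    have : ((n ^ 2 : ℕ) : ℝ) < m := by push_cast; linarith
    have : n ^ 2 + 1 ≤ m := by exact_mod_cast this
    have : (((n ^ 2 + 1 : ℕ)) : ℝ) ≤ m := by exact_mod_cast this
    push_cast at this
    linarith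
  have h7 : (n : ℝ) / 2 ≤ 22 * w + 64 * (4 * 10 ^ 13) ^ 2 * w ^ 2 := by nlinarith
  have h8 : w ^ 2 ≤ k ^ 2 := pow_le_pow_left₀ h4 h5.le 2
  have h9 : Real.sqrt n ≤ 10 ^ 15 * k := by
    refine Real.sqrt_le_iff.2 ⟨by positivity, ?_⟩
    nlinarith
  linarith

end Pool.Agent.MP_1fa752_co.H51
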